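import Pool.Agent.Helper93.WP.St

set_option autoImplicit false

namespace Pool.Agent.Helper10.WP

open Polynomial Pool.Agent.Helper93.WP
open Pool.Agent.Helper69.WS (lucV)

/-- the set of the solutions in an interval -/
def Sx (p : ℕ) (n v a : ℤ) (H : ℕ) : Set ℤ :=
  {t : ℤ | a < t ∧ t ≤ a + H ∧ lucV t n p ≡ t + p * v [ZMOD (p : ℤ) ^ 2]}

lemma Sx_sub (p : ℕ) (n v a : ℤ) (H : ℕ) : Sx p n v a H ⊆ (Finset.Ioc a (a + H) : Finset ℤ) := by
  intro t ht
  rw [Finset.mem_coe, Finset.mem_Ioc]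
  exact ⟨ht.1, ht.2.1⟩

lemma Sx_fin (p : ℕ) (n v a : ℤ) (H : ℕ) : (Sx p n v a H).Finite :=
  (Finset.finite_toSet _).subset (Sx_sub p n v a H)

lemma Sx_triv (p : ℕ) (n v a : ℤ) (H : ℕ) : (Sx p n v a H).ncard ≤ H := by
  refine (Set.ncard_le_ncard (Sx_sub p n v a H) (Finset.finite_toSet _)).trans ?_
  rw [Set.ncard_coe_finset, Int.card_Ioc]
  simp

/-- small integers which are divisible by `p` are zero -/
lemma small_zero {p : ℕ} {x : ℤ} (h1 : -(p : ℤ) < x) (h2 : x < p) (h3 : (x : ZMod p) = 0) :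
    x = 0 := by
  have h4 : (p : ℤ) ∣ x := (ZMod.intCast_zmod_eq_zero_iff_dvd x p).1 h3
  exact Int.eq_zero_of_abs_lt_dvd h4 (abs_lt.2 ⟨h1, h2⟩)

/-- the number of pairs -/
lemma Sx_pair (hALG : StALG) (p : ℕ) [Fact p.Prime] (hp2 : p ≠ 2) (n v a : ℤ)
    (H R : ℕ)
    (hHp : H ≤ p)
    (hR : ∀ (h : ZMod p) (D : (ZMod p)[X]), h ≠ 0 → D.natDegree ≤ p - 1 →
      IsD p (n : ZMod p) h D → {t : ZMod p | D.eval t = 0}.ncard ≤ R) :
    (Sx p n v a H).ncard * (Sx p n v a H).ncard ≤ (Sx p n v a H).ncard + R * (2 * H) := by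
  classical
  set T : Finset ℤ := (Sx_fin p n v a H).toFinset with hT
  have hTm : ∀ t, t ∈ T ↔ t ∈ Sx p n v a H := fun t => Set.Finite.mem_toFinset _
  have hN : (Sx p n v a H).ncard = T.card := Set.ncard_eq_toFinset_card _ _
  rw [hN]
  have hdiff : ∀ t ∈ T, ∀ t' ∈ T, -(H : ℤ) < t' - t ∧ t' - t < H := by
    intro t ht t' ht'
    have h1 := (hTm t).1 ht
    have h2 := (hTm t').1 ht'
    have h3 := h1.1
    have h4 := h1.2.1
    have h5 := h2.1
    have h6 := h2.2.1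
    constructor <;> omega
  have hpz : (H : ℤ) ≤ p := by exact_mod_cast hHp
  have hinj : ∀ t ∈ T, ∀ t' ∈ T, (t : ZMod p) = (t' : ZMod p) → t = t' := by
    intro t ht t' ht' h
    have h1 := hdiff t ht t' ht'
    have h2 : t' - t = 0 := by
      refine small_zero (p := p) (by omega) (by omega) ?_
      push_cast
      rw [h, sub_self]
    omega
  have key : T.offDiag.card ≤ R * (T.offDiag.image (fun x : ℤ × ℤ => x.2 - x.1)).card := by
    refine Finset.card_le_mul_card_image T.offDiag R ?_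
    intro h hh
    rw [Finset.mem_image] at hh
    obtain ⟨x, hx, hxh⟩ := hh
    rw [Finset.mem_offDiag] at hx
    have h1 := hdiff x.1 hx.1 x.2 hx.2.1
    have hz : (h : ZMod p) ≠ 0 := by
      intro h0
      have h2 : h = 0 := by
        refine small_zero (p := p) ?_ ?_ h0
        · rw [← hxh]
          omega
        · rw [← hxh]
          omega
      exact hx.2.2 (by omega)
    obtain ⟨D, hD1, hD2, hD3⟩ := hALG p hp2 n h
    have hDR := hR (h : ZMod p) D hz hD1 hD2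
    have hfin : {t : ZMod p | D.eval t = 0}.Finite := Set.toFinite _
    rw [Set.ncard_eq_toFinset_card _ hfin] at hDR
    refine le_trans (Finset.card_le_card_of_injOn (fun x : ℤ × ℤ => (x.1 : ZMod p)) ?_ ?_) hDR
    · intro y hy
      rw [Finset.mem_coe, Finset.mem_filter, Finset.mem_offDiag] at hy
      rw [Finset.mem_coe, Set.Finite.mem_toFinset]
      obtain ⟨⟨hy1, hy2, hy3⟩, hy4⟩ := hy
      have e : y.2 = y.1 + h := by omega
      have g1 := ((hTm y.1).1 hy1).2.2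
      have g2 := ((hTm y.2).1 hy2).2.2
      rw [e] at g2
      exact hD3 y.1 v g1 g2
    · intro y hy z hz h3
      rw [Finset.mem_coe, Finset.mem_filter, Finset.mem_offDiag] at hy hz
      have e1 : y.1 = z.1 := hinj y.1 hy.1.1 z.1 hz.1.1 h3
      have e2 : y.2 = z.2 := by
        have := hy.2
        have := hz.2
        omega
      exact Prod.ext e1 e2
  have himg : (T.offDiag.image (fun x : ℤ × ℤ => x.2 - x.1)).card ≤ 2 * H := by
    have hsub : T.offDiag.image (fun x : ℤ × ℤ => x.2 - x.1) ⊆ Finset.Ioc (-(H : ℤ)) H := by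
      intro h hh
      rw [Finset.mem_image] at hh
      obtain ⟨x, hx, hxh⟩ := hh
      rw [Finset.mem_offDiag] at hx
      have h1 := hdiff x.1 hx.1 x.2 hx.2.1
      rw [Finset.mem_Ioc, ← hxh]
      exact ⟨h1.1, h1.2.le⟩
    refine (Finset.card_le_card hsub).trans ?_
    rw [Int.card_Ioc]
    omega
  have hoff := T.offDiag_card
  have h5 : T.offDiag.card ≤ R * (2 * H) := key.trans (Nat.mul_le_mul_left R himg)
  omega

/-- the bound for short intervals -/
lemma Sx_short (hALG : StALG) (C1 : ℝ) (hC1 : 0 < C1)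
    (hB : ∀ (p : ℕ) [Fact p.Prime], p ≠ 2 → ∀ (n h : ZMod p) (D : (ZMod p)[X]),
      n ≠ 0 → h ≠ 0 → D.natDegree ≤ p - 1 → IsD p n h D →
      ({t : ZMod p | D.eval t = 0}.ncard : ℝ) ≤ C1 * (p : ℝ) ^ ((2 : ℝ) / 3))
    (p : ℕ) (hp : p.Prime) (hp2 : p ≠ 2) (n v a : ℤ) (hn : n = 1 ∨ n = -1) (H : ℕ) (hH : 1 ≤ H)
    (hHp : H ≤ p) :
    ((Sx p n v a H).ncard : ℝ) ≤
      (1 + Real.sqrt (2 * C1)) * (Real.sqrt H * (p : ℝ) ^ ((1 : ℝ) / 3)) := by
  have : Fact p.Prime := ⟨hp⟩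
  have hp1 : (1 : ℝ) ≤ p := by exact_mod_cast hp.one_lt.le
  have hp0 : (0 : ℝ) < p := by linarith
  have hn0 : (n : ZMod p) ≠ 0 := by
    rcases hn with hn | hn
    · rw [hn]
      simp
    · rw [hn]
      simp
  set R : ℕ := ⌊C1 * (p : ℝ) ^ ((2 : ℝ) / 3)⌋₊ with hRd
  have hq0 : 0 ≤ C1 * (p : ℝ) ^ ((2 : ℝ) / 3) := by positivity
  have hR : ∀ (h : ZMod p) (D : (ZMod p)[X]), h ≠ 0 → D.natDegree ≤ p - 1 →
      IsD p (n : ZMod p) h D → {t : ZMod p | D.eval t = 0}.ncard ≤ R := by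
    intro h D h1 h2 h3
    exact Nat.le_floor (hB p hp2 n h D hn0 h1 h2 h3)
  have hmain := Sx_pair hALG p hp2 n v a H R hHp hR
  set N : ℕ := (Sx p n v a H).ncard with hN
  have hRle : (R : ℝ) ≤ C1 * (p : ℝ) ^ ((2 : ℝ) / 3) := Nat.floor_le hq0
  have hmain' : (N : ℝ) * N ≤ N + R * (2 * H) := by exact_mod_cast hmain
  set q : ℝ := (p : ℝ) ^ ((1 : ℝ) / 3) with hq
  have hq1 : 1 ≤ q := Real.one_le_rpow hp1 (by norm_num)
  have hqq : (p : ℝ) ^ ((2 : ℝ) / 3) = q * q := by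
    rw [hq, ← Real.rpow_add hp0]
    norm_num
  have hHr : (1 : ℝ) ≤ H := by exact_mod_cast hH
  have hsH : Real.sqrt H * Real.sqrt H = H := Real.mul_self_sqrt (by linarith)
  have hsH1 : 1 ≤ Real.sqrt H := by
    rw [Real.one_le_sqrt]
    exact hHr
  have hsC : Real.sqrt (2 * C1) * Real.sqrt (2 * C1) = 2 * C1 :=
    Real.mul_self_sqrt (by linarith)
  have hsC0 : 0 ≤ Real.sqrt (2 * C1) := Real.sqrt_nonneg _
  set Y : ℝ := Real.sqrt (2 * C1) * (Real.sqrt H * q) with hY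
  have hY0 : 0 ≤ Y := by positivity
  have hYY : Y * Y = 2 * C1 * H * (q * q) := by
    calc Y * Y = (Real.sqrt (2 * C1) * Real.sqrt (2 * C1)) * (Real.sqrt H * Real.sqrt H) *
          (q * q) := by rw [hY]; ring
      _ = 2 * C1 * H * (q * q) := by rw [hsC, hsH]
  have h6 : (N : ℝ) * N ≤ N + Y * Y := by
    have h7 : (R : ℝ) * (2 * H) ≤ C1 * (q * q) * (2 * H) := by
      rw [← hqq]
      exact mul_le_mul_of_nonneg_right hRle (by linarith)
    rw [hYY]
    nlinarith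
  have h8 : (N : ℝ) ≤ 1 + Y := by
    by_contra hcon
    push Not at hcon
    nlinarith
  have h9 : 1 ≤ Real.sqrt H * q := by nlinarith
  calc (N : ℝ) ≤ 1 + Y := h8
    _ ≤ (1 + Real.sqrt (2 * C1)) * (Real.sqrt H * q) := by
      rw [hY]
      nlinarith

/-- splitting an interval -/
lemma Sx_split (p : ℕ) (n v a : ℤ) (H K : ℕ) :
    (Sx p n v a (H + K)).ncard ≤ (Sx p n v a H).ncard + (Sx p n v (a + H) K).ncard := by
  have hsub : Sx p n v a (H + K) ⊆ Sx p n v a H ∪ Sx p n v (a + H) K := by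
    intro t ht
    obtain ⟨h1, h2, h3⟩ := ht
    push_cast at h2
    by_cases h : t ≤ a + H
    · exact Or.inl ⟨h1, h, h3⟩
    · exact Or.inr ⟨by omega, by omega, h3⟩
  exact (Set.ncard_le_ncard hsub ((Sx_fin _ _ _ _ _).union (Sx_fin _ _ _ _ _))).trans
    (Set.ncard_union_le _ _)

lemma Sx_mono (p : ℕ) (n v a : ℤ) (H K : ℕ) (hHK : H ≤ K) :
    (Sx p n v a H).ncard ≤ (Sx p n v a K).ncard := by
  refine Set.ncard_le_ncard ?_ (Sx_fin _ _ _ _ _)
  intro t ht
  obtain ⟨h1, h2, h3⟩ := ht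
  have : (H : ℤ) ≤ K := by exact_mod_cast hHK
  exact ⟨h1, by omega, h3⟩

/-- many intervals of length `p` -/
lemma Sx_many (p : ℕ) (n v : ℤ) (B : ℝ)
    (hB : ∀ a : ℤ, ((Sx p n v a p).ncard : ℝ) ≤ B) (m : ℕ) :
    ∀ a : ℤ, ((Sx p n v a (m * p)).ncard : ℝ) ≤ m * B := by
  induction m with
  | zero =>
    intro a
    have h := Sx_triv p n v a (0 * p)
    have h' : (Sx p n v a (0 * p)).ncard = 0 := by
      rw [zero_mul] at h ⊢
      omega
    rw [h']
    simp
  | succ m ih =>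
    intro a
    have h1 := Sx_split p n v a (m * p) p
    have h2 : (m + 1) * p = m * p + p := by ring
    rw [h2]
    have h3 := ih a
    have h4 := hB (a + ((m * p : ℕ) : ℤ))
    have h5 : ((Sx p n v a (m * p + p)).ncard : ℝ) ≤
        ((Sx p n v a (m * p)).ncard : ℝ) + ((Sx p n v (a + ((m * p : ℕ) : ℤ)) p).ncard : ℝ) := by
      exact_mod_cast h1
    push_cast
    linarith

/-- module PAIR -/
theorem hPAIR (hALG : StALG) (hBND : StBND) : StPAIR := by
  obtain ⟨C1, hC1, hB⟩ := hBND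
  set K : ℝ := 1 + Real.sqrt (2 * C1) with hK
  have hK1 : 1 ≤ K := by
    have := Real.sqrt_nonneg (2 * C1)
    linarith
  refine ⟨2 * K + 2, by linarith, ?_⟩
  intro p hp n v a H hn hH
  change ((Sx p n v a H).ncard : ℝ) ≤ _
  have hp1 : (1 : ℝ) ≤ p := by exact_mod_cast hp.one_lt.le
  have hp0 : (0 : ℝ) < p := by linarith
  have hHr : (1 : ℝ) ≤ H := by exact_mod_cast hH
  have hA0 : 0 ≤ Real.sqrt H * (p : ℝ) ^ ((1 : ℝ) / 3) := by positivity
  have hB0 : 0 ≤ (H : ℝ) * (p : ℝ) ^ (-(1 : ℝ) / 6) := by positivity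
  by_cases hp2 : p = 2
  · have h1 : ((Sx p n v a H).ncard : ℝ) ≤ H := by exact_mod_cast Sx_triv p n v a H
    have h2 : (1 / 2 : ℝ) ≤ (p : ℝ) ^ (-(1 : ℝ) / 6) := by
      rw [hp2]
      have h3 : (2 : ℝ) ^ (-1 : ℝ) ≤ (2 : ℝ) ^ (-(1 : ℝ) / 6) :=
        Real.rpow_le_rpow_of_exponent_le (by norm_num) (by norm_num)
      rw [Real.rpow_neg_one] at h3
      push_cast
      linarith
    nlinarith
  · by_cases hHp : H ≤ p
    · have h1 := Sx_short hALG C1 hC1 hB p hp hp2 n v a hn H hH hHp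
      nlinarith
    · push Not at hHp
      have h1 : ∀ a' : ℤ, ((Sx p n v a' p).ncard : ℝ) ≤ K * (p : ℝ) ^ ((5 : ℝ) / 6) := by
        intro a'
        have h2 := Sx_short hALG C1 hC1 hB p hp hp2 n v a' hn p hp.one_lt.le le_rfl
        have h3 : Real.sqrt p * (p : ℝ) ^ ((1 : ℝ) / 3) = (p : ℝ) ^ ((5 : ℝ) / 6) := by
          rw [Real.sqrt_eq_rpow, ← Real.rpow_add hp0]
          norm_num
        rw [h3] at h2
        exact h2
      set m : ℕ := H / p + 1 with hm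
      have h2 : H ≤ m * p := by
        have h3 := Nat.div_add_mod H p
        have h4 := Nat.mod_lt H hp.pos
        rw [hm]
        nlinarith
      have h3 := Sx_many p n v _ h1 m a
      have h4 : ((Sx p n v a H).ncard : ℝ) ≤ ((Sx p n v a (m * p)).ncard : ℝ) := by
        exact_mod_cast Sx_mono p n v a H (m * p) h2
      have h5 : (m : ℝ) * p ≤ 2 * H := by
        have h6 : H / p * p ≤ H := Nat.div_mul_le_self H p
        have h7 : m * p ≤ 2 * H := by
          rw [hm]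
          nlinarith
        exact_mod_cast h7
      have h6 : (p : ℝ) ^ ((5 : ℝ) / 6) = p * (p : ℝ) ^ (-(1 : ℝ) / 6) := by
        conv_rhs => rw [← Real.rpow_one (p : ℝ)]
        rw [Real.rpow_one, ← Real.rpow_one_add' hp0.le (by norm_num)]
        norm_num
      have h7 : (m : ℝ) * (K * (p : ℝ) ^ ((5 : ℝ) / 6)) ≤
          2 * K * (H * (p : ℝ) ^ (-(1 : ℝ) / 6)) := by
        rw [h6]
        have h8 : 0 ≤ K * (p : ℝ) ^ (-(1 : ℝ) / 6) := by positivity
        have h9 := mul_le_mul_of_nonneg_right h5 h8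
        nlinarith
      nlinarith

end Pool.Agent.Helper10.WP
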